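import Pool.Agent.H53.IL.Helly
import Pool.Agent.H53.CL.Emb

/-!
Configurations of roots without the label infinity are in parabolic subgroups without this label.
-/

set_option autoImplicit false

namespace Pool.Agent.H53.IL

open Pool.Agent.Helper741 Pool.Agent.TH107 CoxeterSystem Pool.Agent.X201.AT
open Pool.Agent.H53.VA Pool.Agent.R665.She Pool.Agent.H53.VS Pool.Agent.H53.CL

section

variable {B : Type} {M : CoxeterMatrix B} [Fintype B] [DecidableEq B]
variable {W : Type} [Group W] {cs : CoxeterSystem M W} {X : Set B}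

/-- a positive multiple of a simple root which is a root -/
theorem root_smul {w : W} {a x : B} {c : ℝ} (hc : 0 ≤ c) (h : geo cs w (ee x) = c • ee a) :
    geo cs w (ee x) = ee a := by
  have h1 : bil M (geo cs w (ee x)) (geo cs w (ee x)) = 2 := by
    rw [bil_geo, bil_ee_left, coroot_ee, cc_self]
    norm_num
  rw [h, bil_smul_left, bil_smul_right, bil_ee_left, coroot_ee, cc_self] at h1
  have h2 : c = 1 := by nlinarith
  rw [h, h2, one_smul]

/-- **a root with support in `X`, after division by an element of the parabolic subgroup** -/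
theorem root_supp {d : W} {a : B} (hd : ∀ x ∈ X, 0 ≤ geo cs d⁻¹ (ee x))
    (hs : ∀ i, i ∉ X → geo cs d (ee a) i = 0) : ∃ x ∈ X, geo cs d (ee a) = ee x := by
  classical
  set β := geo cs d (ee a) with hβ
  have hsum : ∀ j, (ee a : B → ℝ) j = ∑ x, β x * geo cs d⁻¹ (ee x) j := by
    intro j
    have h1 : (ee a : B → ℝ) = geo cs d⁻¹ β := by
      rw [hβ, geo_geo, inv_mul_cancel, map_one, Module.End.one_apply]
    have h2 : β = ∑ x, β x • (ee x : B → ℝ) := by
      funext i
      rw [Finset.sum_apply, Finset.sum_eq_single i]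
      · simp [ee]
      · intro x _ hx
        simp [ee, hx.symm]
      · intro h
        exact absurd (Finset.mem_univ _) h
    rw [h1]
    conv_lhs => rw [h2]
    rw [map_sum, Finset.sum_apply]
    apply Finset.sum_congr rfl
    intro x _
    rw [map_smul]
    rfl
  have hterm : ∀ x, 0 ≤ β x → ∀ j, 0 ≤ β x * geo cs d⁻¹ (ee x) j := by
    intro x hx j
    by_cases hxX : x ∈ X
    · exact mul_nonneg hx (hd x hxX j)
    · rw [hs x hxX, zero_mul]
  rcases lt_or_gt_of_ne (cs.length_mul_simple_ne d a).symm with h | h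
  · -- positive
    have hpos : 0 ≤ β := (geo_nonneg_iff cs d a).2 h
    have hne : ∃ x, 0 < β x := by
      by_contra hcon
      push Not at hcon
      exact geo_ee_ne_zero cs d a (funext fun x => le_antisymm (hcon x) (hpos x))
    obtain ⟨x, hx⟩ := hne
    have hxX : x ∈ X := by
      by_contra hxX
      rw [hs x hxX] at hx
      exact lt_irrefl _ hx
    have h1 : ∀ j, j ≠ a → geo cs d⁻¹ (ee x) j = 0 := by
      intro j hj
      have h2 := hsum j
      have h3 : (ee a : B → ℝ) j = 0 := by simp [ee, hj.symm]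
      rw [h3] at h2
      have h4 := (Finset.sum_eq_zero_iff_of_nonneg fun y _ => hterm y (hpos y) j).1 h2.symm x
        (Finset.mem_univ x)
      exact (mul_eq_zero.1 h4).resolve_left hx.ne'
    have h2 : geo cs d⁻¹ (ee x) = (geo cs d⁻¹ (ee x) a) • (ee a : B → ℝ) := by
      funext j
      by_cases hj : j = a
      · subst hj
        simp [ee]
      · rw [h1 j hj]
        simp [ee, Ne.symm hj]
    have h3 := root_smul (hd x hxX a) h2
    refine ⟨x, hxX, ?_⟩
    rw [hβ, ← h3, geo_geo, mul_inv_cancel, map_one, Module.End.one_apply]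
  · -- negative
    exfalso
    have hneg : β ≤ 0 := (geo_nonpos_iff cs d a).2 h
    have h2 := hsum a
    have h3 : (ee a : B → ℝ) a = 1 := by simp [ee]
    have h4 : ∑ x, β x * geo cs d⁻¹ (ee x) a ≤ 0 := by
      apply Finset.sum_nonpos
      intro x _
      by_cases hxX : x ∈ X
      · exact mul_nonpos_of_nonpos_of_nonneg (hneg x) (hd x hxX a)
      · rw [hs x hxX, zero_mul]
    rw [← h2, h3] at h4
    norm_num at h4

/-- the reflections of the same root -/
theorem refl_unique {u u' : W} {a a' : B} (h : geo cs u (ee a) = geo cs u' (ee a')) :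
    u * cs.simple a * u⁻¹ = u' * cs.simple a' * u'⁻¹ := by
  have h1 : geo cs (u'⁻¹ * u) (ee a) = ee a' := by
    rw [← geo_geo, h, geo_geo, inv_mul_cancel, map_one, Module.End.one_apply]
  have h2 := simple_comm h1
  have h3 : u' * (cs.simple a' * (u'⁻¹ * u)) * u⁻¹ = u' * (u'⁻¹ * u * cs.simple a) * u⁻¹ := by rw [h2]
  simp only [mul_assoc, mul_inv_cancel, mul_one, mul_inv_cancel_left] at h3
  rw [mul_assoc, mul_assoc, h3]

/-- the support of the root of a reflection in a parabolic subgroup -/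
theorem supp_of_mem {u w : W} {a : B} (h : w⁻¹ * (u * cs.simple a * u⁻¹) * w ∈ WX cs X) (i : B)
    (hi : i ∉ X) : geo cs w⁻¹ (geo cs u (ee a)) i = 0 := by
  have h1 := WX_coord h (geo cs w⁻¹ (geo cs u (ee a))) i hi
  have h2 : geo cs (w⁻¹ * (u * cs.simple a * u⁻¹) * w) (geo cs w⁻¹ (geo cs u (ee a))) =
      -geo cs w⁻¹ (geo cs u (ee a)) := by
    have h3 : w⁻¹ * (u * cs.simple a * u⁻¹) * w * (w⁻¹ * u) = w⁻¹ * u * cs.simple a := by group
    have h4 : (ee a : B → ℝ) - (-2 * (-1 : ℝ)) • ee a = -ee a := by module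
    have h5 : geo cs w⁻¹ (geo cs u (ee a)) = geo cs (w⁻¹ * u) (ee a) := geo_geo _ _ _
    rw [h5, geo_geo, h3, ← geo_geo, geo_simple, sg_apply, coroot_ee, cc_self, h4, map_neg]
  rw [h2, Pi.neg_apply] at h1
  linarith

theorem mem_WX {x : B} (hx : x ∈ X) : cs.simple x ∈ WX cs X := Subgroup.subset_closure ⟨x, hx, rfl⟩

open Pool.Agent.Y110.FJ in
/-- **the Coxeter group as an amalgamated product** -/
theorem cox_amg {s t : B} (hst : M s t = 0) :
    Amg (WX cs {t}ᶜ) (WX cs {s}ᶜ) (WX cs ({s}ᶜ ∩ {t}ᶜ)) := by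
  classical
  have hne : s ≠ t := by
    rintro rfl
    rw [M.diagonal] at hst
    exact absurd hst (by norm_num)
  have hle1 : WX cs ({s}ᶜ ∩ {t}ᶜ) ≤ WX cs {t}ᶜ :=
    Subgroup.closure_mono (Set.image_mono Set.inter_subset_right)
  have hle2 : WX cs ({s}ᶜ ∩ {t}ᶜ) ≤ WX cs {s}ᶜ :=
    Subgroup.closure_mono (Set.image_mono Set.inter_subset_left)
  refine ⟨hle1, hle2, ?_, ?_⟩
  · rw [eq_top_iff, ← cs.subgroup_closure_range_simple, Subgroup.closure_le]
    rintro _ ⟨i, rfl⟩
    by_cases hi : i = t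
    · exact Subgroup.mem_sup_right (mem_WX fun h : i = s => hne (h.symm.trans hi))
    · exact Subgroup.mem_sup_left (mem_WX hi)
  · intro H _ f g hfg
    let φ : B → H := fun i => if hi : i ≠ t then f ⟨cs.simple i, mem_WX hi⟩ else
      g ⟨cs.simple i, mem_WX fun h : i = s => hne (h.symm.trans (not_not.1 hi))⟩
    have h1 : ∀ i (hi : i ≠ t), φ i = f ⟨cs.simple i, mem_WX hi⟩ := fun i hi => dif_pos hi
    have h2 : ∀ i (hi : i ≠ s), φ i = g ⟨cs.simple i, mem_WX hi⟩ := by
      intro i hi
      by_cases hi' : i ≠ t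
      · rw [h1 i hi']
        exact hfg (cs.simple i) (mem_WX ⟨hi, hi'⟩)
      · exact dif_neg hi'
    have hφ : M.IsLiftable φ := by
      intro i j
      by_cases h0 : M i j = 0
      · rw [h0, pow_zero]
      · by_cases h3 : i ≠ t ∧ j ≠ t
        · rw [h1 i h3.1, h1 j h3.2, ← map_mul, ← map_pow]
          have h4 : ((⟨cs.simple i, mem_WX h3.1⟩ : WX cs {t}ᶜ) * ⟨cs.simple j, mem_WX h3.2⟩) ^ M i j =
              1 := Subtype.ext (cs.simple_mul_simple_pow i j)
          rw [h4, map_one]
        · have h5 : i ≠ s ∧ j ≠ s := by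
            constructor
            · rintro rfl
              refine h3 ⟨hne, ?_⟩
              rintro rfl
              exact h0 hst
            · rintro rfl
              refine h3 ⟨?_, hne⟩
              rintro rfl
              exact h0 (by rw [M.symmetric]; exact hst)
          rw [h2 i h5.1, h2 j h5.2, ← map_mul, ← map_pow]
          have h4 : ((⟨cs.simple i, mem_WX h5.1⟩ : WX cs {s}ᶜ) * ⟨cs.simple j, mem_WX h5.2⟩) ^ M i j =
              1 := Subtype.ext (cs.simple_mul_simple_pow i j)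
          rw [h4, map_one]
    refine ⟨cs.lift ⟨φ, hφ⟩, ?_, ?_⟩
    · rintro ⟨a, ha⟩
      show cs.lift ⟨φ, hφ⟩ a = f ⟨a, ha⟩
      induction ha using Subgroup.closure_induction with
      | mem x hx =>
        obtain ⟨i, hi, rfl⟩ := hx
        rw [cs.lift_apply_simple hφ]
        exact h1 i hi
      | one => rw [map_one]; exact (map_one f).symm
      | mul x y hx hy h5 h6 =>
        rw [map_mul, h5, h6, ← map_mul]
        rfl
      | inv x hx h5 =>
        rw [map_inv, h5, ← map_inv]
        rfl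
    · rintro ⟨a, ha⟩
      show cs.lift ⟨φ, hφ⟩ a = g ⟨a, ha⟩
      induction ha using Subgroup.closure_induction with
      | mem x hx =>
        obtain ⟨i, hi, rfl⟩ := hx
        rw [cs.lift_apply_simple hφ]
        exact h2 i hi
      | one => rw [map_one]; exact (map_one g).symm
      | mul x y hx hy h5 h6 =>
        rw [map_mul, h5, h6, ← map_mul]
        rfl
      | inv x hx h5 =>
        rw [map_inv, h5, ← map_inv]
        rfl

variable {p : B → ℕ} {K : Type} {N : CoxeterMatrix K} {q : K → ℕ} {r : K → (B → ℝ)}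

/-- **a configuration avoids one of two simple roots with the label infinity, up to conjugation** -/
theorem conf_helly [Finite K] [Nonempty K] (hr : ConfS cs p N q r) {s t : B} (hst : M s t = 0) :
    ∃ w : W, (∀ i, geo cs w⁻¹ (r i) t = 0) ∨ ∀ i, geo cs w⁻¹ (r i) s = 0 := by
  have hne : s ≠ t := by
    rintro rfl
    rw [M.diagonal] at hst
    exact absurd hst (by norm_num)
  have hex : ∀ i, ∃ (u : W) (a : B), r i = geo cs u (ee a) := fun i => by
    obtain ⟨u, a, -, -, -, -, -, h, -⟩ := hr i i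
    exact ⟨u, a, h⟩
  choose u a hu using hex
  obtain ⟨w, hw | hw⟩ := helly_amg (cox_amg (cs := cs) hst)
    (fun i => u i * cs.simple (a i) * (u i)⁻¹) (by
      intro i j
      obtain ⟨v, b, c, h1, h2, -, -, h3, h4⟩ := hr i j
      refine ⟨v, ?_⟩
      rw [refl_unique ((hu i).symm.trans h3), refl_unique ((hu j).symm.trans h4)]
      have e : ∀ b : B, v⁻¹ * (v * cs.simple b * v⁻¹) * v = cs.simple b := fun b => by group
      rw [e, e]
      rw [h1] at h2
      by_cases h5 : b ≠ t ∧ c ≠ t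
      · exact Or.inl ⟨mem_WX h5.1, mem_WX h5.2⟩
      · right
        refine ⟨mem_WX ?_, mem_WX ?_⟩
        · rintro rfl
          refine h5 ⟨hne, ?_⟩
          rintro rfl
          exact h2 hst
        · rintro rfl
          refine h5 ⟨?_, hne⟩
          rintro rfl
          exact h2 (by rw [M.symmetric]; exact hst))
  · exact ⟨w, Or.inl fun i => by
      rw [hu i]
      exact supp_of_mem (hw i) t fun h => h rfl⟩
  · exact ⟨w, Or.inr fun i => by
      rw [hu i]
      exact supp_of_mem (hw i) s fun h => h rfl⟩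

end

section

variable {B B' : Type} [Fintype B] [DecidableEq B] [Fintype B'] [DecidableEq B']
variable {M : CoxeterMatrix B} {M' : CoxeterMatrix B'} (f : B' → B)
variable {W W' : Type} [Group W] [Group W'] {cs : CoxeterSystem M W} (cs' : CoxeterSystem M' W')

omit [Fintype B] in
theorem ext_apply (hinj : Function.Injective f) (v : B' → ℝ) (x : B') : ext f v (f x) = v x := by
  unfold ext
  rw [Finset.sum_apply, Finset.sum_eq_single x]
  · simp [ee]
  · intro y _ hy
    have : f x ≠ f y := fun h => hy (hinj h.symm)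
    simp [ee, this]
  · intro h
    exact absurd (Finset.mem_univ _) h

theorem lift_WX (hf : ∀ x y, M (f x) (f y) = M' x y) {v : W} (hv : v ∈ WX cs (Set.range f)) :
    ∃ v' : W', ∀ z, ext f (geo cs' v' z) = geo cs v (ext f z) := by
  unfold WX at hv
  induction hv using Subgroup.closure_induction with
  | mem x hx =>
    obtain ⟨_, ⟨i, rfl⟩, rfl⟩ := hx
    exact ⟨cs'.simple i, fun z => by rw [geo_simple, geo_simple, sg_ext f hf]⟩
  | one => exact ⟨1, fun z => by rw [map_one, map_one]; rfl⟩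
  | mul x y _ _ hx hy =>
    obtain ⟨a, ha⟩ := hx
    obtain ⟨b, hb⟩ := hy
    exact ⟨a * b, fun z => by rw [← geo_geo, ← geo_geo, ha, hb]⟩
  | inv x _ hx =>
    obtain ⟨a, ha⟩ := hx
    refine ⟨a⁻¹, fun z => ?_⟩
    have h1 := ha (geo cs' a⁻¹ z)
    rw [geo_geo, mul_inv_cancel, map_one, Module.End.one_apply] at h1
    rw [h1, geo_geo, inv_mul_cancel, map_one, Module.End.one_apply]

/-- **the restriction of a configuration to a parabolic subgroup** -/
theorem conf_restrict (hf : ∀ x y, M (f x) (f y) = M' x y) (hinj : Function.Injective f)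
    {p : B → ℕ} {p' : B' → ℕ} (hp : ∀ s, p (f s) = p' s) (hg : Good M p) {K : Type}
    {N : CoxeterMatrix K} {q : K → ℕ} {r : K → (B → ℝ)} (hr : ConfS cs p N q r) (w : W)
    (hs : ∀ i, ∀ x, x ∉ Set.range f → geo cs w⁻¹ (r i) x = 0) :
    ConfS cs' p' N q fun i x => geo cs w⁻¹ (r i) (f x) := by
  intro i j
  obtain ⟨u₀, a, b, h1, h2, h3, h4, h5, h6⟩ := hr i j
  obtain ⟨d', hd', hgd⟩ := exists_good (((w⁻¹ * u₀)⁻¹ : W) : W ⧸ WX cs (Set.range f))
  have hv : w⁻¹ * u₀ * d' ∈ WX cs (Set.range f) := by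
    have h7 := QuotientGroup.eq.1 hd'.symm
    rwa [inv_inv] at h7
  obtain ⟨v', hv'⟩ := lift_WX f cs' hf hv
  have key : ∀ (i : K) (a : B), r i = geo cs u₀ (ee a) → ∃ x : B', geo cs d'⁻¹ (ee a) = ee (f x) ∧
      (fun x => geo cs w⁻¹ (r i) (f x)) = geo cs' v' (ee x) := by
    intro i a ha
    have e1 : geo cs w⁻¹ (r i) = geo cs (w⁻¹ * u₀ * d') (geo cs d'⁻¹ (ee a)) := by
      rw [ha, geo_geo, geo_geo, mul_assoc, mul_inv_cancel, mul_one]
    obtain ⟨_, ⟨x, rfl⟩, hx⟩ := root_supp (cs := cs) (X := Set.range f) (d := d'⁻¹) (a := a)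
      (fun x hx => by rw [inv_inv]; exact hgd x hx) (fun k hk => by
        rw [← WX_coord hv (geo cs d'⁻¹ (ee a)) k hk, ← e1]
        exact hs i k hk)
    refine ⟨x, hx, ?_⟩
    funext y
    show geo cs w⁻¹ (r i) (f y) = _
    rw [e1, hx, ← ext_ee f x, ← hv', ext_apply f hinj]
  obtain ⟨x, hx, hx'⟩ := key i a h5
  obtain ⟨y, hy, hy'⟩ := key j b h6
  refine ⟨v', x, y, ?_, h2, ?_, ?_, hx', hy'⟩
  · rw [h1, ← hf]
    have e1 := lb_mkR cs d'⁻¹ a b
    have e2 := lb_mkR cs 1 (f x) (f y)
    have e3 : mkR cs d'⁻¹ a = mkR cs 1 (f x) := Subtype.ext (by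
      show geo cs d'⁻¹ (ee a) = geo cs 1 (ee (f x))
      rw [hx, map_one]
      rfl)
    have e4 : mkR cs d'⁻¹ b = mkR cs 1 (f y) := Subtype.ext (by
      show geo cs d'⁻¹ (ee b) = geo cs 1 (ee (f y))
      rw [hy, map_one]
      rfl)
    rw [← e1, e3, e4, e2]
  · rw [h3, ← hp]
    exact order_eq (cs := cs) p hg hx
  · rw [h4, ← hp]
    exact order_eq (cs := cs) p hg hy

end

end Pool.Agent.H53.IL
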