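import Pool.Agent.H53.CL.Defs
import Pool.Agent.H53.VA.Cyc

/-!
Sets of generators of Coxeter matrices, and the classical types.
-/

set_option autoImplicit false

namespace Pool.Agent.H53.IL

open Pool.Agent.H53.VA Pool.Agent.H53.CL

/-- the Coxeter matrix of the set `X` of generators -/
def sub {V : Type} (M : CoxeterMatrix V) (X : Set V) : CoxeterMatrix X where
  M := fun i j => M i.1 j.1
  isSymm := by
    ext i j
    exact M.symmetric _ _
  diagonal := fun i => M.diagonal i.1
  off_diagonal := fun i j h => M.off_diagonal i.1 j.1 fun h' => h (Subtype.ext h')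

/-- `M` and `M'` differ only by the names of the generators -/
def Same {V V' : Type} (M : CoxeterMatrix V) (M' : CoxeterMatrix V') : Prop :=
  ∃ e : V ≃ V', ∀ i j, M' (e i) (e j) = M i j

/-- `K` has no partition into two nonempty sets with all labels between them equal to `2` -/
def Irreducible {K : Type} (N : CoxeterMatrix K) : Prop :=
  ∀ X : Set K, X.Nonempty → Xᶜ.Nonempty → ∃ i ∈ X, ∃ j ∉ X, N i j ≠ 2

/-- `X` is an irreducible set of generators without the label infinity -/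
def Block {V : Type} (M : CoxeterMatrix V) (X : Set V) : Prop :=
  (∀ i ∈ X, ∀ j ∈ X, M i j ≠ 0) ∧ Irreducible (sub M X)

/-- every three generators without label infinity have two labels `2` -/
def LocallyReducible {V : Type} (M : CoxeterMatrix V) : Prop :=
  ∀ i j k : V, i ≠ j → j ≠ k → i ≠ k → M i j ≠ 0 → M j k ≠ 0 → M i k ≠ 0 → M i j = 2 ∨ M j k = 2

/-- type `A`, `B` or `D`, or at most two generators -/
def SphericalClassical {V : Type} (M : CoxeterMatrix V) : Prop :=
  Nat.card V ≤ 2 ∨ (∃ n : ℕ, Same M (CoxeterMatrix.A n)) ∨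
    (∃ n : ℕ, 2 ≤ n ∧ Same M (CoxeterMatrix.B n)) ∨ ∃ n : ℕ, 4 ≤ n ∧ Same M (typeD n)

/-- type affine `A`, `B`, `C` or `D` -/
def AffineClassical {V : Type} (M : CoxeterMatrix V) : Prop :=
  (∃ n : ℕ, 3 ≤ n ∧ Same M (cyc n)) ∨
    ∃ (n : ℕ) (a b : Bool), 1 ≤ n ∧ (a = true ∨ b = true ∨ 2 ≤ n) ∧ Same M (cla n a b)

/-- type `A`, `B` or affine `A`, or at most two generators -/
def Elementary {V : Type} (M : CoxeterMatrix V) : Prop :=
  Nat.card V ≤ 2 ∨ (∃ n : ℕ, Same M (CoxeterMatrix.A n)) ∨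
    (∃ n : ℕ, 2 ≤ n ∧ Same M (CoxeterMatrix.B n)) ∨ ∃ n : ℕ, 3 ≤ n ∧ Same M (cyc n)

end Pool.Agent.H53.IL
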