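import Pool.Agent.H53.IL.FInf
import Pool.Agent.H53.CL.ETypeD

/-!
Virtual Shephard groups in classes closed under extensions: the reduction to irreducible parabolic
subgroups without the label infinity.
-/

set_option autoImplicit false

namespace Pool.Agent.H53.IL.E

open Pool.Agent.Helper741 Pool.Agent.TH107 CoxeterSystem Pool.Agent.X201.AT
open Pool.Agent.H53.VA Pool.Agent.R665.She Pool.Agent.H53.VS Pool.Agent.H53.CL
open Pool.Agent.R779.BC (ExtCl ext_hom)

variable {C : ∀ (G : Type) [Group G], Prop} (hC : ExtCl C)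
variable (hcox : ∀ (B : Type) [Finite B] (M : CoxeterMatrix B), C M.Group)

theorem good_sub {B : Type} {M : CoxeterMatrix B} {p : B → ℕ} (hg : Good M p) (Y : Set B) :
    Good (subM M Y) fun i => p i :=
  ⟨fun i => hg.1 i, fun i j hij => hg.2 i j hij⟩

include hC hcox

/-- configurations which are in one of some parabolic subgroups -/
theorem vs_step {B : Type} [Fintype B] [DecidableEq B] (M : CoxeterMatrix B) (p : B → ℕ)
    (hg : Good M p) (S : Set (Set B)) (h1 : ∀ Y ∈ S, C (VirtualShephard (subM M Y) fun i => p i))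
    (h2 : ∀ (K : Type) [Finite K] (N : CoxeterMatrix K) (q : K → ℕ) (r : K → (B → ℝ)),
      ConfS M.toCoxeterSystem p N q r → IrrM N →
        ∃ (w : M.Group) (Y : Set B), Y ∈ S ∧ ∀ i, ∀ x, x ∉ Y → geo M.toCoxeterSystem w⁻¹ (r i) x = 0) :
    C (VirtualShephard M p) := by
  classical
  rw [Pool.Agent.H53.VS.E.vs_conf _ hC hcox hg]
  intro K _ N q r hr hI
  obtain ⟨w, Y, hY, hs⟩ := h2 K N q r hr hI
  have : Fintype Y := Fintype.ofFinite Y
  have h3 : ConfS (subM M Y).toCoxeterSystem (fun i : Y => p i) N q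
      fun i (x : Y) => geo M.toCoxeterSystem w⁻¹ (r i) x :=
    conf_restrict (fun x : Y => (x : B)) (cs := M.toCoxeterSystem) (subM M Y).toCoxeterSystem
      (fun _ _ => rfl) Subtype.val_injective (fun _ => rfl) hg hr w (by
        rw [Subtype.range_coe]
        exact hs)
  exact Pool.Agent.H53.VS.E.sh_of_conf _ hC hcox (good_sub hg Y) (h1 Y hY) N q _ h3

/-- one label infinity -/
theorem vs_inf {B : Type} [Fintype B] [DecidableEq B] (M : CoxeterMatrix B) (p : B → ℕ)
    (hg : Good M p) {s t : B} (hst : M s t = 0)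
    (hs : C (VirtualShephard (subM M {s}ᶜ) fun i => p i))
    (ht : C (VirtualShephard (subM M {t}ᶜ) fun i => p i)) : C (VirtualShephard M p) := by
  refine vs_step hC hcox M p hg {{s}ᶜ, {t}ᶜ} ?_ ?_
  · rintro Y (rfl | rfl)
    · exact hs
    · exact ht
  · intro K _ N q r hr _
    rcases isEmpty_or_nonempty K with hK | hK
    · exact ⟨1, {s}ᶜ, Or.inl rfl, fun i => isEmptyElim i⟩
    · obtain ⟨w, hw | hw⟩ := conf_helly hr hst
      · refine ⟨w, {t}ᶜ, Or.inr rfl, fun i x hx => ?_⟩
        have hx' : x = t := by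
          by_contra h
          exact hx h
        rw [hx']
        exact hw i
      · refine ⟨w, {s}ᶜ, Or.inl rfl, fun i x hx => ?_⟩
        have hx' : x = s := by
          by_contra h
          exact hx h
        rw [hx']
        exact hw i

omit hC hcox in
theorem geo_comp {B : Type} [Fintype B] [DecidableEq B] {M : CoxeterMatrix B} {W : Type} [Group W]
    (cs : CoxeterSystem M W) {X : Set B} (hX : ∀ i ∈ X, ∀ j ∉ X, M i j = 2) (u : W) {a : B}
    (ha : a ∈ X) : ∀ x, x ∉ X → geo cs u (ee a) x = 0 := by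
  induction u using cs.simple_induction_left with
  | one =>
    intro x hx
    have : x ≠ a := fun h => hx (h ▸ ha)
    rw [map_one, Module.End.one_apply]
    simp [ee, this]
  | mul_simple_left w i ih =>
    intro x hx
    rw [← geo_geo, geo_simple, sg_apply, Pi.sub_apply, ih x hx, Pi.smul_apply]
    by_cases hi : i ∈ X
    · have : x ≠ i := fun h => hx (h ▸ hi)
      simp [ee, this]
    · have h1 : coroot M i (geo cs w (ee a)) = 0 := by
        rw [coroot_apply]
        apply Finset.sum_eq_zero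
        intro j _
        by_cases hj : j ∈ X
        · have h2 : cc M i j = 0 := by
            unfold cc
            rw [M.symmetric, hX j hj i hi]
            simp
          rw [h2]
          ring
        · rw [ih j hj, mul_zero]
      rw [h1, zero_smul, sub_zero]

/-- reducible Coxeter matrices -/
theorem vs_red {B : Type} [Fintype B] [DecidableEq B] (M : CoxeterMatrix B) (p : B → ℕ)
    (hg : Good M p) {X : Set B} (hX : ∀ i ∈ X, ∀ j ∉ X, M i j = 2)
    (h1 : C (VirtualShephard (subM M X) fun i => p i))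
    (h2 : C (VirtualShephard (subM M Xᶜ) fun i => p i)) : C (VirtualShephard M p) := by
  refine vs_step hC hcox M p hg {X, Xᶜ} ?_ ?_
  · rintro Y (rfl | rfl)
    · exact h1
    · exact h2
  · intro K _ N q r hr hI
    have hX' : ∀ i ∈ Xᶜ, ∀ j ∉ Xᶜ, M i j = 2 := by
      intro i hi j hj
      rw [M.symmetric]
      exact hX j (not_not.1 hj) i hi
    have hinv : ∀ v : B → ℝ, geo M.toCoxeterSystem (1 : M.Group)⁻¹ v = v := by
      intro v
      rw [inv_one, map_one]
      rfl
    let Y : Set K := {i | ∃ (u : M.Group) (a : B), a ∈ X ∧ r i = geo M.toCoxeterSystem u (ee a)}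
    have hY : ∀ i ∈ Y, ∀ x, x ∉ X → r i x = 0 := by
      rintro i ⟨u, a, ha, hr'⟩ x hx
      rw [hr']
      exact geo_comp _ hX u ha x hx
    have hY' : ∀ i ∉ Y, ∀ x, x ∉ Xᶜ → r i x = 0 := by
      intro i hi x hx
      obtain ⟨u, a, -, -, -, -, -, h, -⟩ := hr i i
      have ha : a ∈ Xᶜ := fun ha => hi ⟨u, a, ha, h⟩
      rw [h]
      exact geo_comp _ hX' u ha x hx
    have hcase : (∀ i, i ∈ Y) ∨ ∀ i, i ∉ Y := by
      by_contra hcon
      push Not at hcon
      obtain ⟨⟨a, ha⟩, b, hb⟩ := hcon
      obtain ⟨i, hi, j, hj, hij⟩ := hI Y ⟨b, hb⟩ ⟨a, ha⟩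
      obtain ⟨u, c, d, h3, -, -, -, h5, h6⟩ := hr i j
      apply hij
      rw [h3]
      have hc : c ∈ X := by
        by_contra hc
        have h7 := geo_comp M.toCoxeterSystem hX' u hc
        rw [← h5] at h7
        obtain ⟨u', a', ha', h8⟩ := hi
        have h9 := geo_comp M.toCoxeterSystem hX u' ha'
        rw [← h8] at h9
        apply geo_ee_ne_zero M.toCoxeterSystem u c
        rw [← h5]
        funext x
        by_cases hx : x ∈ X
        · exact h7 x fun h => h hx
        · exact h9 x hx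
      exact hX c hc d fun hd => hj ⟨u, d, hd, h6⟩
    rcases hcase with h | h
    · exact ⟨1, X, Or.inl rfl, fun i x hx => by rw [hinv]; exact hY i (h i) x hx⟩
    · exact ⟨1, Xᶜ, Or.inr rfl, fun i x hx => by rw [hinv]; exact hY' i (h i) x hx⟩

/-- **the reduction** -/
theorem vs_of_comp : ∀ (n : ℕ) (B : Type) [Fintype B] [DecidableEq B] (M : CoxeterMatrix B)
    (p : B → ℕ), Fintype.card B = n → Good M p →
    (∀ X : Set B, (∀ i ∈ X, ∀ j ∈ X, M i j ≠ 0) → IrrM (subM M X) →
      C (VirtualShephard (subM M X) fun i => p i)) → C (VirtualShephard M p) := by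
  classical
  intro n
  induction n using Nat.strong_induction_on with
  | _ n ih =>
    intro B _ _ M p hn hg H
    -- proper subsets
    have hsub : ∀ Y : Set B, (∃ x, x ∉ Y) → C (VirtualShephard (subM M Y) fun i => p i) := by
      rintro Y ⟨x, hx⟩
      have : Fintype Y := Fintype.ofFinite Y
      have hlt : Fintype.card Y < n := by
        rw [← hn]
        exact Fintype.card_subtype_lt hx
      refine ih _ hlt Y (subM M Y) (fun i => p i) rfl (good_sub hg Y) fun Z hZ hI => ?_
      have : Fintype Z := Fintype.ofFinite Z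
      let Z' : Set B := Subtype.val '' Z
      have : Fintype Z' := Fintype.ofFinite Z'
      have h1 : C (VirtualShephard (subM M Z') fun i => p i) := by
        refine H Z' ?_ ?_
        · rintro _ ⟨i, hi, rfl⟩ _ ⟨j, hj, rfl⟩
          exact hZ i hi j hj
        · intro U hU hU'
          let e : Z → Z' := fun z => ⟨z.1.1, z.1, z.2, rfl⟩
          have he : Function.Surjective e := by
            rintro ⟨_, y, hy, rfl⟩
            exact ⟨⟨y, hy⟩, rfl⟩
          obtain ⟨a, ha⟩ := hU
          obtain ⟨b, hb⟩ := hU'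
          obtain ⟨a', rfl⟩ := he a
          obtain ⟨b', rfl⟩ := he b
          obtain ⟨i, hi, j, hj, hij⟩ := hI (e ⁻¹' U) ⟨a', ha⟩ ⟨b', hb⟩
          exact ⟨e i, hi, e j, hj, hij⟩
      exact Pool.Agent.H53.CL.E.vs_par hC hcox (fun z : Z => (⟨z.1.1, z.1, z.2, rfl⟩ : Z'))
        (fun _ _ => rfl) (fun _ => rfl) (good_sub hg Z') (good_sub (good_sub hg Y) Z) h1
    by_cases h0 : ∃ s t, M s t = 0
    · obtain ⟨s, t, hst⟩ := h0
      exact vs_inf hC hcox M p hg hst (hsub _ ⟨s, fun h => h rfl⟩) (hsub _ ⟨t, fun h => h rfl⟩)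
    · push Not at h0
      by_cases hI : IrrM M
      · have : Fintype (Set.univ : Set B) := Fintype.ofFinite _
        have h1 := H Set.univ (fun i _ j _ => h0 i j) (by
          intro U hU hU'
          let e : B → (Set.univ : Set B) := fun z => ⟨z, trivial⟩
          obtain ⟨a, ha⟩ := hU
          obtain ⟨b, hb⟩ := hU'
          obtain ⟨i, hi, j, hj, hij⟩ := hI (e ⁻¹' U) ⟨a.1, ha⟩ ⟨b.1, hb⟩
          exact ⟨e i, hi, e j, hj, hij⟩)
        exact Pool.Agent.H53.CL.E.vs_par hC hcox (fun z : B => (⟨z, trivial⟩ : (Set.univ : Set B)))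
          (fun _ _ => rfl) (fun _ => rfl) (good_sub hg _) hg h1
      · unfold IrrM at hI
        push Not at hI
        obtain ⟨X, ⟨a, ha⟩, ⟨b, hb⟩, hX⟩ := hI
        exact vs_red hC hcox M p hg hX (hsub X ⟨b, hb⟩) (hsub Xᶜ ⟨a, fun h => h ha⟩)

/-- **virtual Shephard groups and their parabolic subgroups** -/
theorem vs_comp_iff {B : Type} [Fintype B] [DecidableEq B] (M : CoxeterMatrix B) (p : B → ℕ)
    (hg : Good M p) : C (VirtualShephard M p) ↔
      ∀ X : Set B, (∀ i ∈ X, ∀ j ∈ X, M i j ≠ 0) → IrrM (subM M X) →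
        C (VirtualShephard (subM M X) fun i => p i) := by
  classical
  refine ⟨fun h X _ _ => ?_, fun H => vs_of_comp hC hcox _ B M p rfl hg H⟩
  have : Fintype X := Fintype.ofFinite X
  exact Pool.Agent.H53.CL.E.vs_par hC hcox (fun x : X => (x : B)) (fun _ _ => rfl) (fun _ => rfl) hg
    (good_sub hg X) h

end Pool.Agent.H53.IL.E
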