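import Pool.Agent.H53.IL.FLoc
import Pool.Agent.H53.IL.EInf

/-!
Virtual Shephard groups of locally reducible type in classes closed under extensions.
-/

set_option autoImplicit false

namespace Pool.Agent.H53.IL.E

open Pool.Agent.Helper741 Pool.Agent.TH107 CoxeterSystem Pool.Agent.X201.AT
open Pool.Agent.H53.VA Pool.Agent.R665.She Pool.Agent.H53.VS Pool.Agent.H53.CL
open Pool.Agent.R779.BC (ExtCl ext_hom)

/-- in a locally reducible Coxeter matrix the irreducible sets without the label infinity have at most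
two elements -/
theorem block_two {B : Type} {M : CoxeterMatrix B}
    (hL : ∀ i j k : B, i ≠ j → j ≠ k → i ≠ k → M i j ≠ 0 → M j k ≠ 0 → M i k ≠ 0 →
      M i j = 2 ∨ M j k = 2) {X : Set B} (hX : ∀ i ∈ X, ∀ j ∈ X, M i j ≠ 0)
    (hI : IrrM (subM M X)) (a b c : X) (hab : a ≠ b) (hac : a ≠ c) (hbc : b ≠ c) : False := by
  obtain ⟨i, hi, d, hd, h1⟩ := hI {a} ⟨a, rfl⟩ ⟨b, fun h => hab h.symm⟩
  obtain rfl : i = a := hi
  have hid : i ≠ d := fun h => hd h.symm
  have hne : ({i, d} : Set X)ᶜ.Nonempty := by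
    by_contra hcon
    rw [Set.not_nonempty_iff_eq_empty, Set.compl_empty_iff] at hcon
    have hb : b = i ∨ b = d := by
      have : b ∈ ({i, d} : Set X) := hcon ▸ Set.mem_univ b
      simpa using this
    have hc : c = i ∨ c = d := by
      have : c ∈ ({i, d} : Set X) := hcon ▸ Set.mem_univ c
      simpa using this
    rcases hb with rfl | rfl
    · exact hab rfl
    · rcases hc with rfl | rfl
      · exact hac rfl
      · exact hbc rfl
  obtain ⟨u, hu, e, he, h2⟩ := hI {i, d} ⟨i, Or.inl rfl⟩ hne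
  have hei : e ≠ i := fun h => he (Or.inl h)
  have hed : e ≠ d := fun h => he (Or.inr h)
  have sub_ne : ∀ {x y : X}, x ≠ y → (x : B) ≠ y := fun h h' => h (Subtype.ext h')
  rw [subM_apply] at h1 h2
  rcases hu with rfl | hu
  · rcases hL d.1 u.1 e.1 (sub_ne hid.symm) (sub_ne hei.symm) (sub_ne hed.symm) (hX _ d.2 _ u.2)
      (hX _ u.2 _ e.2) (hX _ d.2 _ e.2) with h | h
    · exact h1 (by rw [M.symmetric]; exact h)
    · exact h2 h
  · obtain rfl : u = d := hu
    rcases hL i.1 u.1 e.1 (sub_ne hid) (sub_ne hed.symm) (sub_ne hei.symm) (hX _ i.2 _ u.2)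
      (hX _ u.2 _ e.2) (hX _ i.2 _ e.2) with h | h
    · exact h1 h
    · exact h2 h

variable {C : ∀ (G : Type) [Group G], Prop} (hC : ExtCl C)
variable (hcox : ∀ (B : Type) [Finite B] (M : CoxeterMatrix B), C M.Group)
variable (hfin : ∀ (G : Type) [Group G] [Finite G], C G)

include hC hcox hfin

/-- rank two, all labels -/
theorem vs_two {B : Type} [Fintype B] [DecidableEq B] (M : CoxeterMatrix B) (p : B → ℕ)
    (hg : Good M p) (hB : Fintype.card B ≤ 2)
    (h3 : ∀ i j, M i j = 3 → C (Sh (cyc 3) fun _ => p i)) : C (VirtualShephard M p) := by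
  by_cases h : ∃ i j, M i j = 3
  · obtain ⟨i, j, hij⟩ := h
    have hne : i ≠ j := by
      rintro rfl
      rw [M.diagonal] at hij
      omega
    have hall : ∀ x, x = i ∨ x = j := by
      intro x
      by_contra hx
      push Not at hx
      have h2 : ({i, j, x} : Finset B).card = 3 := by
        rw [Finset.card_insert_of_notMem, Finset.card_insert_of_notMem, Finset.card_singleton]
        · simpa using hx.2.symm
        · simp only [Finset.mem_insert, Finset.mem_singleton, not_or]
          exact ⟨hne, hx.1.symm⟩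
      have h3 := Finset.card_le_univ ({i, j, x} : Finset B)
      omega
    have hp : p i = p j := hg.2 i j (hij ▸ (by decide))
    have hA := (Pool.Agent.H53.VS.E.vs_A_two hC hcox (p i) (hg.1 i)).2 (h3 i j hij)
    refine Pool.Agent.H53.CL.E.vs_par hC hcox (fun x : B => if x = i then (0 : Fin 2) else 1)
      (p := fun _ => p i) ?_ ?_ ⟨fun _ => hg.1 i, fun _ _ _ => rfl⟩ hg hA
    · intro s t
      rcases hall s with rfl | rfl <;> rcases hall t with rfl | rfl
      · rw [if_pos rfl, M.diagonal, CoxeterMatrix.diagonal]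
      · rw [if_pos rfl, if_neg hne.symm, hij]
        rfl
      · rw [if_pos rfl, if_neg hne.symm, M.symmetric, hij]
        rfl
      · rw [if_neg hne.symm, M.diagonal, CoxeterMatrix.diagonal]
    · intro s
      rcases hall s with rfl | rfl
      · rfl
      · exact hp
  · push Not at h
    exact Pool.Agent.H53.VS.E.vs_rank_two p hC hfin hcox hg hB h

/-- **locally reducible type** -/
theorem vs_locred {B : Type} [Fintype B] [DecidableEq B] (M : CoxeterMatrix B) (p : B → ℕ)
    (hg : Good M p) (hL : ∀ i j k : B, i ≠ j → j ≠ k → i ≠ k → M i j ≠ 0 → M j k ≠ 0 → M i k ≠ 0 →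
      M i j = 2 ∨ M j k = 2)
    (h3 : ∀ i j, M i j = 3 → C (Sh (cyc 3) fun _ => p i)) : C (VirtualShephard M p) := by
  classical
  rw [vs_comp_iff hC hcox M p hg]
  intro X hX hI
  have : Fintype X := Fintype.ofFinite X
  refine vs_two hC hcox hfin _ _ (good_sub hg X) ?_ fun i j hij => h3 i.1 j.1 hij
  by_contra hcon
  push Not at hcon
  obtain ⟨a, b, c, h1, h2, h3⟩ := Fintype.two_lt_card_iff.1 hcon
  exact block_two hL hX hI a b c h1 h2 h3

end Pool.Agent.H53.IL.E
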