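import Pool.Agent.H53.IL.FLoc
import Pool.Agent.H53.IL.Defs

/-!
Virtual Artin groups and their parabolic subgroups.
-/

set_option autoImplicit false

namespace Pool.Agent.H53.IL.F

open Pool.Agent.Helper741 Pool.Agent.TH107 CoxeterSystem Pool.Agent.X201.AT
open Pool.Agent.H53.VA Pool.Agent.R665.She Pool.Agent.H53.VS Pool.Agent.H53.CL
open Pool.Agent.Y110.FJ Pool.Agent.H53.IL

theorem good_zero {V : Type} (M : CoxeterMatrix V) : Good M fun _ => 0 :=
  ⟨fun _ => (by decide : Even 0), fun _ _ _ => rfl⟩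

variable {C : ∀ (G : Type) [Group G], Prop} (hC : ClosedE C)

include hC in
theorem quot_zero {G : Type} [Group G] {ι : Type} (f : ι → G) :
    C (G ⧸ Subgroup.normalClosure (Set.range fun v => f v ^ 0)) ↔ C G := by
  have e0 : Subgroup.normalClosure (Set.range fun v => f v ^ 0) = ⊥ := by
    rw [eq_bot_iff, ← Subgroup.normalClosure_subset_iff]
    rintro _ ⟨v, rfl⟩
    exact Subgroup.mem_bot.2 (pow_zero _)
  let e : (G ⧸ Subgroup.normalClosure (Set.range fun v => f v ^ 0)) ≃* G :=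
    (QuotientGroup.quotientMulEquivOfEq e0).trans QuotientGroup.quotientBot
  exact ⟨fun h1 => hC.base.of_injective _ _ e.symm.toMonoidHom e.symm.injective h1,
    fun h1 => hC.base.of_injective _ _ e.toMonoidHom e.injective h1⟩

include hC in
theorem vs_zero {V : Type} (M : CoxeterMatrix V) :
    C (VirtualShephard M fun _ => 0) ↔ C (VirtualArtin M) := quot_zero hC (sig M)

include hC in
theorem sh_zero {V : Type} (M : CoxeterMatrix V) : C (Sh M fun _ => 0) ↔ C (Artin M) :=
  quot_zero hC (Artin.gen M)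

variable (hcox : ∀ (B : Type) [Finite B] (M : CoxeterMatrix B), C M.Group)

include hC hcox

theorem va_of_va {V V' : Type} [Fintype V] [Fintype V'] {M : CoxeterMatrix V}
    {M' : CoxeterMatrix V'} (f : V' → V) (hf : ∀ s t, M (f s) (f t) = M' s t)
    (h : C (VirtualArtin M)) : C (VirtualArtin M') := by
  classical
  exact (vs_zero hC M').1 (Pool.Agent.H53.CL.F.vs_par hC hcox f hf (fun _ => rfl) (good_zero M)
    (good_zero M') ((vs_zero hC M).2 h))

theorem va_artin {V : Type} [Fintype V] {M : CoxeterMatrix V} (h : C (VirtualArtin M)) :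
    C (Artin M) := by
  classical
  exact (sh_zero hC M).1 (Pool.Agent.H53.VS.F.sh_of_vs _ hC hcox (good_zero M) ((vs_zero hC M).2 h))

/-- **blocks** -/
theorem va_block {V : Type} [Fintype V] (M : CoxeterMatrix V) :
    C (VirtualArtin M) ↔ ∀ X : Set V, Block M X → C (VirtualArtin (sub M X)) := by
  classical
  rw [← vs_zero hC M, vs_comp_iff hC hcox M _ (good_zero M)]
  exact ⟨fun h X hX => (vs_zero hC _).1 (h X hX.1 hX.2),
    fun h X h1 h2 => (vs_zero hC _).2 (h X ⟨h1, h2⟩)⟩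

/-- a criterion -/
theorem va_of_blocks {V : Type} [Fintype V] (M : CoxeterMatrix V)
    (P : ∀ {U : Type}, CoxeterMatrix U → Prop)
    (hP : ∀ {U : Type} [Fintype U] (N : CoxeterMatrix U), P N → C (VirtualArtin N))
    (h : ∀ X : Set V, Block M X → ∃ Y : Set V, X ⊆ Y ∧ P (sub M Y)) : C (VirtualArtin M) := by
  classical
  rw [va_block hC hcox M]
  intro X hX
  obtain ⟨Y, hXY, hY⟩ := h X hX
  have : Fintype X := Fintype.ofFinite X
  have : Fintype Y := Fintype.ofFinite Y
  exact va_of_va hC hcox (M := sub M Y) (fun x : X => (⟨x.1, hXY x.2⟩ : Y)) (fun _ _ => rfl) (hP _ hY)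

theorem va_same {U U' : Type} [Fintype U] [Fintype U'] {N : CoxeterMatrix U} {N' : CoxeterMatrix U'}
    (h : Same N N') (h' : C (VirtualArtin N')) : C (VirtualArtin N) := by
  obtain ⟨e, he⟩ := h
  exact va_of_va hC hcox e he h'

/-- **locally reducible type** -/
theorem va_locred {V : Type} [Fintype V] (M : CoxeterMatrix V) (hL : LocallyReducible M)
    (h3 : ∀ i j, M i j = 3 → C (Artin (cyc 3))) : C (VirtualArtin M) := by
  classical
  exact (vs_zero hC M).1 (vs_locred hC hcox M _ (good_zero M) hL fun i j h =>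
    (sh_zero hC _).2 (h3 i j h))

theorem va_A_two : C (VirtualArtin (CoxeterMatrix.A 2)) ↔ C (Artin (cyc 3)) := by
  rw [← vs_zero hC, ← sh_zero hC]
  exact Pool.Agent.H53.VS.F.vs_A_two hC hcox 0 (by decide)

theorem va_two {V : Type} [Fintype V] (M : CoxeterMatrix V) (hV : Nat.card V ≤ 2)
    (h : C (Artin (cyc 3))) : C (VirtualArtin M) := by
  classical
  rw [Nat.card_eq_fintype_card] at hV
  exact (vs_zero hC M).1 (vs_two hC hcox M _ (good_zero M) hV fun _ _ _ => (sh_zero hC _).2 h)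

/-- **all locally reducible types** -/
theorem va_locred_iff :
    (∀ (V : Type) [Fintype V] (M : CoxeterMatrix V), LocallyReducible M → C (VirtualArtin M)) ↔
      C (Artin (cyc 3)) := by
  refine ⟨fun h => (va_A_two hC hcox).1 (h _ _ ?_), fun h V _ M hL => va_locred hC hcox M hL
    fun _ _ _ => h⟩
  intro i j k hij hjk hik
  have := i.2
  have := j.2
  have := k.2
  exfalso
  have h1 := Fin.val_ne_of_ne hij
  have h2 := Fin.val_ne_of_ne hjk
  have h3 := Fin.val_ne_of_ne hik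
  omega

/-- **spherical types without exceptional parts** -/
theorem va_spherical :
    (∀ (V : Type) [Fintype V] (M : CoxeterMatrix V),
      (∀ X : Set V, Block M X → ∃ Y : Set V, X ⊆ Y ∧ SphericalClassical (sub M Y)) →
        C (VirtualArtin M)) ↔
    (∀ n : ℕ, 3 ≤ n → C (Artin (cyc n))) ∧ (∀ n : ℕ, 2 ≤ n → C (Artin (CoxeterMatrix.B n))) ∧
      ∀ n : ℕ, 2 ≤ n → C (Artin (cla n true true)) := by
  have hs : ∀ {V U : Type} (M : CoxeterMatrix V) (N : CoxeterMatrix U) (e : V ≃ U),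
      (∀ i j, N (e i) (e j) = M i j) → Same (sub M Set.univ) N := fun M N e h =>
    ⟨(Equiv.Set.univ _).trans e, fun i j => h i.1 j.1⟩
  constructor
  · intro h
    refine ⟨fun n hn => ?_, fun n hn => ?_, ?_⟩
    · exact (sh_zero hC _).1 ((Pool.Agent.H53.VS.F.vs_A_iff hC hcox 0 (by decide)).1
        (fun m => (vs_zero hC _).2 (h _ _ fun X _ => ⟨Set.univ, Set.subset_univ _, Or.inr (Or.inl
          ⟨m, hs _ _ (Equiv.refl _) fun _ _ => rfl⟩)⟩)) n hn)
    · exact va_artin hC hcox (h _ _ fun X _ => ⟨Set.univ, Set.subset_univ _, Or.inr (Or.inr (Or.inl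
        ⟨n, hn, hs _ _ (Equiv.refl _) fun _ _ => rfl⟩))⟩)
    · have h1 := (Pool.Agent.H53.CL.F.vs_typeD_iff hC hcox 0 (by decide)).1 fun n hn =>
        (vs_zero hC _).2 (h _ _ fun X _ => ⟨Set.univ, Set.subset_univ _, Or.inr (Or.inr (Or.inr
          ⟨n, hn, hs _ _ (Equiv.refl _) fun _ _ => rfl⟩))⟩)
      exact fun n hn => (sh_zero hC _).1 (h1.2 n hn)
  · rintro ⟨h1, h2, h3⟩ V _ M hM
    refine va_of_blocks hC hcox M SphericalClassical ?_ hM
    intro U _ N hN
    rcases hN with hN | ⟨n, hN⟩ | ⟨n, hn, hN⟩ | ⟨n, hn, hN⟩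
    · exact va_two hC hcox N hN (h1 3 le_rfl)
    · exact va_same hC hcox hN ((vs_zero hC _).1 ((Pool.Agent.H53.VS.F.vs_A_iff hC hcox 0
        (by decide)).2 (fun n hn => (sh_zero hC _).2 (h1 n hn)) n))
    · have h4 : ∀ n : ℕ, ordB n 0 0 = fun _ => 0 := by
        intro n
        funext i
        unfold ordB
        split_ifs <;> rfl
      have h5 := (Pool.Agent.H53.CL.F.vs_B_iff hC hcox 0 0 (by decide) (by decide)).2
        ⟨fun n hn => (sh_zero hC _).2 (h1 n hn), fun n hn => by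
          rw [h4]
          exact (sh_zero hC _).2 (h2 n hn)⟩ n hn
      rw [h4] at h5
      exact va_same hC hcox hN ((vs_zero hC _).1 h5)
    · exact va_same hC hcox hN ((vs_zero hC _).1 ((Pool.Agent.H53.CL.F.vs_typeD_iff hC hcox 0
        (by decide)).2 ⟨fun n hn => (sh_zero hC _).2 (h1 n hn),
          fun n hn => (sh_zero hC _).2 (h3 n hn)⟩ n hn))

/-- **spherical and affine types without exceptional parts** -/
theorem va_classical :
    (∀ (V : Type) [Fintype V] (M : CoxeterMatrix V),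
      (∀ X : Set V, Block M X → ∃ Y : Set V, X ⊆ Y ∧
        (SphericalClassical (sub M Y) ∨ AffineClassical (sub M Y))) → C (VirtualArtin M)) ↔
    (∀ n : ℕ, 3 ≤ n → C (Artin (cyc n))) ∧
      ∀ (n : ℕ) (a b : Bool), 1 ≤ n → (a = true ∨ b = true ∨ 2 ≤ n) → C (Artin (cla n a b)) := by
  have hs : ∀ {V U : Type} (M : CoxeterMatrix V) (N : CoxeterMatrix U) (e : V ≃ U),
      (∀ i j, N (e i) (e j) = M i j) → Same (sub M Set.univ) N := fun M N e h =>
    ⟨(Equiv.Set.univ _).trans e, fun i j => h i.1 j.1⟩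
  constructor
  · intro h
    refine ⟨fun n hn => ?_, fun n a b h1 h2 => ?_⟩
    · have : NeZero n := ⟨by omega⟩
      exact va_artin hC hcox (h _ _ fun X _ => ⟨Set.univ, Set.subset_univ _, Or.inr (Or.inl
        ⟨n, hn, hs _ _ (Equiv.refl _) fun _ _ => rfl⟩)⟩)
    · exact va_artin hC hcox (h _ _ fun X _ => ⟨Set.univ, Set.subset_univ _, Or.inr (Or.inr
        ⟨n, a, b, h1, h2, hs _ _ (Equiv.refl _) fun _ _ => rfl⟩)⟩)
  · rintro ⟨h1, h2⟩ V _ M hM
    obtain ⟨k1, k2, k3, k4, k5⟩ := Pool.Agent.H53.CL.F.artin_all hC hcox 0 (by decide)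
      (fun n hn => (sh_zero hC _).2 (h1 n hn)) fun n a b h3 h4 => (sh_zero hC _).2 (h2 n a b h3 h4)
    refine va_of_blocks hC hcox M (fun N => SphericalClassical N ∨ AffineClassical N) ?_ hM
    intro U _ N hN
    rcases hN with (hN | ⟨n, hN⟩ | ⟨n, hn, hN⟩ | ⟨n, hn, hN⟩) | (⟨n, hn, hN⟩ | ⟨n, a, b, h3, h4, hN⟩)
    · exact va_two hC hcox N hN (h1 3 le_rfl)
    · exact va_same hC hcox hN ((vs_zero hC _).1 (k1 n))
    · exact va_same hC hcox hN ((vs_zero hC _).1 (k2 n hn))
    · exact va_same hC hcox hN ((vs_zero hC _).1 (k3 n hn))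
    · have : NeZero n := ⟨by omega⟩
      exact va_same hC hcox hN ((vs_zero hC _).1 (k4 n hn))
    · exact va_same hC hcox hN ((vs_zero hC _).1 (k5 n a b h3 h4))

/-- **sets of generators of types `A`, `B`, affine `A` and of rank two** -/
theorem va_elem (hcyc : ∀ n : ℕ, 3 ≤ n → C (Artin (cyc n)))
    (hB : ∀ n : ℕ, 2 ≤ n → C (Artin (CoxeterMatrix.B n))) {V : Type} [Fintype V] (M : CoxeterMatrix V)
    (h : ∀ X : Set V, Block M X → ∃ Y : Set V, X ⊆ Y ∧ Elementary (sub M Y)) :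
    C (VirtualArtin M) := by
  refine va_of_blocks hC hcox M Elementary ?_ h
  intro U _ N hN
  rcases hN with hN | ⟨n, hN⟩ | ⟨n, hn, hN⟩ | ⟨n, hn, hN⟩
  · exact va_two hC hcox N hN (hcyc 3 le_rfl)
  · exact va_same hC hcox hN ((vs_zero hC _).1 ((Pool.Agent.H53.VS.F.vs_A_iff hC hcox 0
      (by decide)).2 (fun n hn => (sh_zero hC _).2 (hcyc n hn)) n))
  · have h4 : ∀ n : ℕ, ordB n 0 0 = fun _ => 0 := by
      intro n
      funext i
      unfold ordB
      split_ifs <;> rfl
    have h5 := (Pool.Agent.H53.CL.F.vs_B_iff hC hcox 0 0 (by decide) (by decide)).2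
      ⟨fun n hn => (sh_zero hC _).2 (hcyc n hn), fun n hn => by
        rw [h4]
        exact (sh_zero hC _).2 (hB n hn)⟩ n hn
    rw [h4] at h5
    exact va_same hC hcox hN ((vs_zero hC _).1 h5)
  · have : NeZero n := ⟨by omega⟩
    exact va_same hC hcox hN ((vs_zero hC _).1 ((Pool.Agent.H53.CL.F.vs_cyc_iff hC hcox 0
      (by decide)).2 (fun n hn => (sh_zero hC _).2 (hcyc n hn)) n hn))

end Pool.Agent.H53.IL.F
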