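import Pool.Graph.R_pool_sql_team_seeded_64922ed1.X201.FJ.AmgTree

/-!
The Helly property of trees, for finite sets of elements of amalgamated products.
-/

set_option autoImplicit false

namespace Pool.Agent.H53.IL

open SimpleGraph

section tree

variable {V : Type} {T : SimpleGraph V}

/-- every path between two points of `F` stays in `F` -/
def Cvx (T : SimpleGraph V) (F : Set V) : Prop :=
  ∀ x ∈ F, ∀ y ∈ F, ∀ p : T.Walk x y, p.IsPath → ∀ z ∈ p.support, z ∈ F

theorem Cvx.inter {F F' : Set V} (h : Cvx T F) (h' : Cvx T F') : Cvx T (F ∩ F') :=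
  fun x hx y hy p hp z hz => ⟨h x hx.1 y hy.1 p hp z hz, h' x hx.2 y hy.2 p hp z hz⟩

theorem path_append {x y z : V} (p : T.Walk x y) (q : T.Walk y z) (hp : p.IsPath) (hq : q.IsPath)
    (h : ∀ v, v ∈ p.support → v ∈ q.support → v = y) : (p.append q).IsPath := by
  rw [Walk.isPath_def, Walk.support_append]
  rw [Walk.isPath_def] at hp hq
  have hq' : q.support = y :: q.support.tail := Walk.support_eq_cons q
  rw [hq'] at hq
  rw [List.nodup_cons] at hq
  refine List.Nodup.append hp hq.2 ?_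
  intro v hv hv'
  have h1 : v ∈ q.support := by
    rw [hq']
    exact List.mem_cons_of_mem _ hv'
  have h2 := h v hv h1
  subst h2
  exact hq.1 hv'

theorem exists_proj (hT : T.Connected) (F : Set V) (hF : F.Nonempty) (z : V) :
    ∃ m ∈ F, ∃ p : T.Walk m z, p.IsPath ∧ ∀ v ∈ p.support, v ∈ F → v = m := by
  classical
  have hex : ∃ n, ∃ m ∈ F, ∃ p : T.Walk m z, p.length = n := by
    obtain ⟨m, hm⟩ := hF
    obtain ⟨p⟩ := hT.preconnected m z
    exact ⟨p.length, m, hm, p, rfl⟩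
  obtain ⟨m, hm, p, hp⟩ := Nat.find_spec hex
  have hmin : ∀ m' ∈ F, ∀ p' : T.Walk m' z, p.length ≤ p'.length := fun m' hm' p' => by
    rw [hp]
    exact Nat.find_min' hex ⟨m', hm', p', rfl⟩
  refine ⟨m, hm, p.bypass, p.bypass_isPath, fun v hv hvF => ?_⟩
  by_contra hne
  have h1 := hmin v hvF (p.bypass.dropUntil v hv)
  have h2 : (p.bypass.takeUntil v hv).length + (p.bypass.dropUntil v hv).length =
      p.bypass.length := by
    rw [← Walk.length_append, Walk.take_spec]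
  have h3 := p.length_bypass_le
  have h4 : (p.bypass.takeUntil v hv).length ≠ 0 := fun h5 =>
    hne (Walk.eq_of_length_eq_zero h5).symm
  omega

theorem helly_three (hT : T.Connected) {F₁ F₂ F₃ : Set V} (h1 : Cvx T F₁) (h2 : Cvx T F₂)
    (h3 : Cvx T F₃) (h12 : (F₁ ∩ F₂).Nonempty) (h13 : (F₁ ∩ F₃).Nonempty)
    (h23 : (F₂ ∩ F₃).Nonempty) : (F₁ ∩ F₂ ∩ F₃).Nonempty := by
  classical
  obtain ⟨z, hz1, hz2⟩ := h12
  obtain ⟨y, hy1, hy3⟩ := h13
  obtain ⟨x, hx2, hx3⟩ := h23
  obtain ⟨P₀⟩ := hT.preconnected x y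
  let P := P₀.bypass
  have hP : P.IsPath := P₀.bypass_isPath
  obtain ⟨m, hm, R, hR, hR'⟩ := exists_proj hT {v | v ∈ P.support} ⟨x, P.start_mem_support⟩ z
  have hm' : m ∈ P.support := hm
  refine ⟨m, ⟨?_, ?_⟩, h3 x hx3 y hy3 P hP m hm'⟩
  · have hp := path_append (P.dropUntil m hm').reverse R (hP.dropUntil hm').reverse hR fun v hv hv' => by
      refine hR' v hv' ?_
      rw [Walk.support_reverse, List.mem_reverse] at hv
      exact P.support_dropUntil_subset hm' hv
    exact h1 y hy1 z hz1 _ hp m (by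
      rw [Walk.mem_support_append_iff]
      exact Or.inr R.start_mem_support)
  · have hp := path_append (P.takeUntil m hm') R (hP.takeUntil hm') hR fun v hv hv' =>
      hR' v hv' (P.support_takeUntil_subset hm' hv)
    exact h2 x hx2 z hz2 _ hp m (by
      rw [Walk.mem_support_append_iff]
      exact Or.inr R.start_mem_support)

theorem helly (hT : T.Connected) {ι : Type} (s : Finset ι) (hs : s.Nonempty) :
    ∀ F : ι → Set V, (∀ i ∈ s, Cvx T (F i)) → (∀ i ∈ s, ∀ j ∈ s, (F i ∩ F j).Nonempty) →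
      ∃ v, ∀ i ∈ s, v ∈ F i := by
  classical
  induction hs using Finset.Nonempty.cons_induction with
  | singleton a =>
    intro F _ h2
    obtain ⟨v, hv⟩ := h2 a (Finset.mem_singleton_self a) a (Finset.mem_singleton_self a)
    refine ⟨v, fun i hi => ?_⟩
    rw [Finset.mem_singleton.1 hi]
    exact hv.1
  | cons a s ha hs ih =>
    intro F h1 h2
    have ha' : a ∈ Finset.cons a s ha := Finset.mem_cons_self a s
    have hm : ∀ i ∈ s, i ∈ Finset.cons a s ha := fun i hi => Finset.mem_cons_of_mem hi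
    obtain ⟨v, hv⟩ := ih (fun i => F i ∩ F a) (fun i hi => (h1 i (hm i hi)).inter (h1 a ha'))
      fun i hi j hj => by
        obtain ⟨v, ⟨h3, h4⟩, h5⟩ := helly_three hT (h1 i (hm i hi)) (h1 j (hm j hj)) (h1 a ha')
          (h2 i (hm i hi) j (hm j hj)) (h2 i (hm i hi) a ha') (h2 j (hm j hj) a ha')
        exact ⟨v, ⟨h3, h5⟩, h4, h5⟩
    refine ⟨v, fun i hi => ?_⟩
    rcases Finset.mem_cons.1 hi with rfl | hi'
    · obtain ⟨j, hj⟩ := hs
      exact (hv j hj).2
    · exact (hv i hi').1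

/-- the fixed points of an automorphism of a tree -/
theorem cvx_fix (hT : T.IsTree) (f : T →g T) (hf : Function.Injective f) : Cvx T {v | f v = v} := by
  intro x hx y hy p hp z hz
  have hx' : f x = x := hx
  have hy' : f y = y := hy
  have h1 : ((p.map f).copy hx' hy').IsPath := by
    rw [Walk.isPath_def, Walk.support_copy, Walk.support_map]
    rw [Walk.isPath_def] at hp
    exact hp.map hf
  have h2 : (p.map f).copy hx' hy' = p := (hT.existsUnique_path x y).unique h1 hp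
  have h3 : p.support.map f = p.support := by
    have h4 := congrArg Walk.support h2
    rwa [Walk.support_copy, Walk.support_map] at h4
  obtain ⟨n, hn, rfl⟩ := List.getElem_of_mem hz
  show f (p.support[n]) = p.support[n]
  have h5 : (p.support.map f)[n]'(by rw [List.length_map]; exact hn) = p.support[n] := by
    simp only [h3]
  rw [List.getElem_map] at h5
  exact h5

end tree

section amg

open Pool.Agent.Y110.FJ Pool.Agent.X201.FJ.Tr

variable {G : Type} [Group G] {A B K : Subgroup G}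

/-- the action on the tree -/
def tact (A B : Subgroup G) (g : G) : amgGraph A B →g amgGraph A B where
  toFun := Sum.map (fun x => g • x) fun x => g • x
  map_rel' := by
    rintro x y ⟨u, ⟨rfl, rfl⟩ | ⟨rfl, rfl⟩⟩
    · exact ⟨g * u, Or.inl ⟨rfl, rfl⟩⟩
    · exact ⟨g * u, Or.inr ⟨rfl, rfl⟩⟩

theorem tact_inj (g : G) : Function.Injective (tact A B g) :=
  Sum.map_injective.2 ⟨MulAction.injective g, MulAction.injective g⟩

theorem fix_inl (g u : G) : tact A B g (Sum.inl (u : G ⧸ A)) = Sum.inl (u : G ⧸ A) ↔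
    u⁻¹ * g * u ∈ A := by
  show Sum.inl (g • (u : G ⧸ A)) = (Sum.inl (u : G ⧸ A) : (G ⧸ A) ⊕ (G ⧸ B)) ↔ _
  rw [Sum.inl.injEq]
  show ((g * u : G) : G ⧸ A) = (u : G ⧸ A) ↔ _
  rw [eq_comm, QuotientGroup.eq, mul_assoc]

theorem fix_inr (g u : G) : tact A B g (Sum.inr (u : G ⧸ B)) = Sum.inr (u : G ⧸ B) ↔
    u⁻¹ * g * u ∈ B := by
  show Sum.inr (g • (u : G ⧸ B)) = (Sum.inr (u : G ⧸ B) : (G ⧸ A) ⊕ (G ⧸ B)) ↔ _
  rw [Sum.inr.injEq]
  show ((g * u : G) : G ⧸ B) = (u : G ⧸ B) ↔ _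
  rw [eq_comm, QuotientGroup.eq, mul_assoc]

/-- **elements of an amalgamated product which are pairwise in conjugates of the factors** -/
theorem helly_amg (h : Amg A B K) {ι : Type} [Finite ι] [Nonempty ι] (g : ι → G)
    (hp : ∀ i j, ∃ u : G, (u⁻¹ * g i * u ∈ A ∧ u⁻¹ * g j * u ∈ A) ∨
      (u⁻¹ * g i * u ∈ B ∧ u⁻¹ * g j * u ∈ B)) :
    ∃ u : G, (∀ i, u⁻¹ * g i * u ∈ A) ∨ ∀ i, u⁻¹ * g i * u ∈ B := by
  have : Fintype ι := Fintype.ofFinite ι
  have hT := amg_tree h
  obtain ⟨v, hv⟩ := helly hT.connected (Finset.univ : Finset ι) Finset.univ_nonempty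
    (fun i => {v | tact A B (g i) v = v}) (fun i _ => cvx_fix hT _ (tact_inj _)) fun i _ j _ => by
      obtain ⟨u, ⟨h1, h2⟩ | ⟨h1, h2⟩⟩ := hp i j
      · exact ⟨Sum.inl (u : G ⧸ A), (fix_inl _ _).2 h1, (fix_inl _ _).2 h2⟩
      · exact ⟨Sum.inr (u : G ⧸ B), (fix_inr _ _).2 h1, (fix_inr _ _).2 h2⟩
  rcases v with v | v
  · obtain ⟨u, rfl⟩ := QuotientGroup.mk_surjective v
    exact ⟨u, Or.inl fun i => (fix_inl _ _).1 (hv i (Finset.mem_univ i))⟩
  · obtain ⟨u, rfl⟩ := QuotientGroup.mk_surjective v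
    exact ⟨u, Or.inr fun i => (fix_inr _ _).1 (hv i (Finset.mem_univ i))⟩

end amg

end Pool.Agent.H53.IL
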